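import Pool.Agent.H422R3.Kom.Final

/-!
# The Komlós problem for vector systems with an elementary abelian 2-group of symmetries
-/

namespace Pool.Agent.Results.MP_c81d26_co.InvolutiveOrbits

open MulAction

/-- `H` is a group in which every element has order at most `2`; it acts freely on the set `D` of
coordinates and freely on the set `N` of indices of the vectors, and the family of vectors
`v : N → (D → ℝ)` is invariant under the two actions. -/
def InvolutiveSymmetry (H D N : Type) [Group H] [MulAction H D] [MulAction H N]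
    (v : N → D → ℝ) : Prop :=
  (∀ a : H, a * a = 1) ∧ (∀ (a : H) (k : D), a • k = k → a = 1) ∧
    (∀ (a : H) (j : N), a • j = j → a = 1) ∧ ∀ (a : H) (j : N) (k : D), v (a • j) (a • k) = v j k

/-- number of orbits of `H` on the index set `N` -/
noncomputable def orbits (H N : Type) [Group H] [MulAction H N] : ℕ :=
  Nat.card (orbitRel.Quotient H N)

theorem result : ∃ C : ℝ, ∀ (H D N : Type) [Group H] [Finite H] [Fintype D] [Fintype N]
    [MulAction H D] [MulAction H N] (v : N → D → ℝ), InvolutiveSymmetry H D N v →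
    (∀ j, ∑ k, v j k ^ 2 ≤ 1) →
    (∃ ε : N → ℝ, (∀ j, ε j = 1 ∨ ε j = -1) ∧
      ∀ k, |∑ j, ε j * v j k| ≤ Real.sqrt (orbits H N)) ∧
    (∃ ε : N → ℝ, (∀ j, ε j = 1 ∨ ε j = -1) ∧
      ∀ k, |∑ j, ε j * v j k| ≤ C * (1 + Real.log (orbits H N)) ^ (5 / 4 : ℝ)) := by
  refine ⟨280000000, ?_⟩
  intro H D N _ _ _ _ _ _ v hs hcol
  obtain ⟨⟨ε, hε, hb⟩, ⟨ε', hε', hb'⟩⟩ := Pool.Agent.H422R3.Kom.final (H := H) (R := D) (C := N)
    hs.1 hs.2.1 hs.2.2.1 (fun k j => v j k) (fun a k j => hs.2.2.2 a j k) hcol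
  refine ⟨⟨ε, hε, fun k => ?_⟩, ⟨ε', hε', fun k => ?_⟩⟩
  · simp_rw [mul_comm (ε _)]
    exact hb k
  · simp_rw [mul_comm (ε' _)]
    exact hb' k

end Pool.Agent.Results.MP_c81d26_co.InvolutiveOrbits
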